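import Pool.Agent.V11109.UHFp.Prime

/-!
# Cancelling tensor factors in unital embeddings of UHF-type algebras

For every `n ≥ 1` and all cardinals `κ < κ'` with `κ'` infinite: if `⨂_{κ'} M_n` embeds unitally
into `A ⊗ ⨂_κ M_n`, `A` a tensor product of matrix algebras, then it embeds unitally into `A`.
-/

universe u

open Cardinal Pool.Agent.Helper741.UHF

namespace Pool.Agent.Results.MP_c44838_an.Cancellation

/-- The assertion of the question for `n` and the cardinals `κ = #K` and `κ' = #K'`: for all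
`A = ⨂_{i ∈ I} M_{m_i}(ℂ)`, `B = ⨂_K M_n(ℂ)`, `B' = ⨂_{K'} M_n(ℂ)` and `E = A ⊗ B`, if `B'`
embeds unitally into `E` then `B'` embeds unitally into `A`. -/
def Q1 (n : ℕ) (K K' : Type u) : Prop :=
  ∀ (I : Type u) (m : I → ℕ), (∀ i, 0 < m i) →
    ∀ (A B B' E : Type u) [CStarAlgebra A] [CStarAlgebra B] [CStarAlgebra B'] [CStarAlgebra E],
      IsMatrixTensor m A → IsMatrixTensor (fun _ : K => n) B →
      IsMatrixTensor (fun _ : K' => n) B' → IsCStarTensor A B E →
      EmbedsUnitally B' E → EmbedsUnitally B' A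

theorem mk_weight_sum {I K : Type u} (p : ℕ) (n : I → ℕ) (m : K → ℕ) :
    #(Σ j : I ⊕ K, Fin (padicValNat p (Sum.elim n m j))) =
      #(Σ i, Fin (padicValNat p (n i))) + #(Σ k, Fin (padicValNat p (m k))) := by
  have e1 := Equiv.sumSigmaDistrib
    (fun j : I ⊕ K => Fin (padicValNat p (Sum.elim n m j)))
  rw [mk_congr e1, mk_sum, lift_id, lift_id]
  rfl

theorem mk_weight_const (K : Type u) (v : ℕ) : #(Σ _ : K, Fin v) = #K * v := by
  rw [mk_congr (Equiv.sigmaEquivProd K (Fin v)), mk_prod]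
  simp

theorem q1 {n : ℕ} (hn : 0 < n) {K K' : Type u} (hlt : #K < #K') (hinf : Infinite K') :
    Q1 n K K' := by
  intro I m hm A B B' E _ _ _ _ hA hB hB' hE hemb
  have hK' : ℵ₀ ≤ #K' := aleph0_le_mk K'
  have hsum := isMatrixTensor_sum hA hB hE
  rw [V11109.UHFp.embeds_iff (n := Sum.elim m (fun _ : K => n)) (by
    rintro (i | k)
    · exact hm i
    · exact hn) (fun _ => hn) hsum hB'] at hemb
  rw [V11109.UHFp.embeds_iff hm (fun _ => hn) hA hB']
  intro p hp
  have h1 := hemb p hp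
  rw [mk_weight_sum, mk_weight_const, mk_weight_const] at h1
  rw [mk_weight_const]
  have hv : ((padicValNat p n : ℕ) : Cardinal.{u}) < ℵ₀ := natCast_lt_aleph0
  rcases Nat.eq_zero_or_pos (padicValNat p n) with h0 | hpos
  · rw [h0]
    simp
  have hlt' : #K * ((padicValNat p n : ℕ) : Cardinal.{u}) < #K' :=
    mul_lt_of_lt hK' hlt (hv.trans_le hK')
  have h2 : #K' ≤ #K' * ((padicValNat p n : ℕ) : Cardinal.{u}) :=
    le_mul_right (by exact_mod_cast hpos.ne')
  have h3 : #K' ≤ #(Σ i, Fin (padicValNat p (m i))) := by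
    by_contra hcon
    push Not at hcon
    exact absurd (add_lt_of_lt hK' hcon hlt') (not_lt.mpr (h2.trans h1))
  refine le_trans ?_ h3
  exact mul_le_of_le hK' le_rfl (hv.le.trans hK')

/-- **Main result.** The answer to the question is yes, and there is a unital embedding
`⨂_{k ∈ K} M_{m_k} → ⨂_{j ∈ J} M_{n_j}` iff for every prime `p` the `p`-adic weight
`∑_k v_p(m_k)` is at most `∑_j v_p(n_j)` (as cardinals). -/
theorem result :
    (∀ n : ℕ, 0 < n → ∀ K K' : Type u, #K < #K' → Infinite K' → Q1 n K K') ∧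
    (∀ (J K : Type u) (n : J → ℕ) (m : K → ℕ), (∀ j, 0 < n j) → (∀ k, 0 < m k) →
      ∀ (E C : Type u) [CStarAlgebra E] [CStarAlgebra C],
        IsMatrixTensor n E → IsMatrixTensor m C →
        (EmbedsUnitally C E ↔ ∀ p : ℕ, p.Prime →
          #(Σ k, Fin (padicValNat p (m k))) ≤ #(Σ j, Fin (padicValNat p (n j))))) ∧
    (∀ (J : Type u) (n : J → ℕ), (∀ j, 0 < n j) →
      (∃ (E : Type u) (_ : CStarAlgebra E), IsMatrixTensor n E) ∧
      ∀ (E F : Type u) [CStarAlgebra E] [CStarAlgebra F],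
        IsMatrixTensor n E → IsMatrixTensor n F → Nonempty (E ≃⋆ₐ[ℂ] F)) ∧
    (∀ (I K : Type u) (n : I → ℕ) (m : K → ℕ), (∀ i, 0 < n i) → (∀ k, 0 < m k) →
      ∀ (A B E : Type u) [CStarAlgebra A] [CStarAlgebra B] [CStarAlgebra E],
        IsMatrixTensor n A → IsMatrixTensor m B →
        (IsCStarTensor A B E ↔ IsMatrixTensor (Sum.elim n m) E)) :=
  ⟨fun _ hn _ _ hlt hinf => q1 hn hlt hinf,
    fun _ _ _ _ hn hm _ _ _ _ hE hC => V11109.UHFp.embeds_iff hn hm hE hC,
    fun _ n hn => ⟨exists_isMatrixTensor n hn, fun _ _ _ _ hE hF =>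
      isMatrixTensor_unique hn hE hF⟩, fun _ _ _ _ hn hm _ _ _ _ _ _ hA hB =>
      isCStarTensor_iff hn hm hA hB⟩

end Pool.Agent.Results.MP_c44838_an.Cancellation
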